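import Pool.Agent.Lib.P7aa9af.Irr3

/-!
A model of ZF in which the real line is sequential and the space of irrational numbers is not.
-/

namespace Pool.Agent.Results.MP_7aa9af_lc.SeqRealsNotIrrationals

open Pool.Agent.Lib.BVM Pool.Agent.Lib.P7aa9af

/-- There is a model of ZF in which the space of all Dedekind cuts of a dense linear order
without endpoints `q` on the set `w` of natural numbers (that is, the real line) is sequential,
and its subspace of the irrational cuts is not sequential. -/
theorem result : ∃ (M : Type 1) (E : M → M → Prop), ModelZF M E ∧
    ∃ w q, IsOmega E w ∧ IsDLO E w q ∧ SequentialSpace E w q (IsCut E w q) ∧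
      ¬ SequentialSpace E w q (IsIrrCut E w q) :=
  exists_model

end Pool.Agent.Results.MP_7aa9af_lc.SeqRealsNotIrrationals
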